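import Pool.Agent.Helper61.TwoLen.Core
import Pool.Agent.Helper61.Sched.TestBit

/-!
# Minimising the number of tardy jobs with release dates and processing times `1` and `p`

Strings over `{0, 1}` are lists of Booleans. `PolyTime` (polynomial-time computability, Mathlib's
`Turing.TM2ComputableInPolyTime` with finite stack alphabets), `InNP` and `NPHard` are those of
`Pool.Agent.Helper96`.
-/

set_option autoImplicit false

namespace Pool.Agent.Results.MP_4ed2ca_lc.TwoLengths

open Classical Pool.Agent.Helper96 Pool.Agent.Helper61.Sched Pool.Agent.Helper61.TwoLen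
open Pool.Agent.Helper69.TwoLen (Feas)

/-! ### The scheduling problems -/

/-- A job: processing time `p`, release date `r`, due date `d`, weight `w`. -/
structure Job where
  p : ℕ
  r : ℕ
  d : ℤ
  w : ℕ

/-- An instance: finitely many jobs and the threshold `k`. -/
structure Instance where
  jobs : List Job
  k : ℕ

/-- Processing times and weights are positive. -/
def Instance.Valid (I : Instance) : Prop := ∀ j ∈ I.jobs, 0 < j.p ∧ 0 < j.w

/-- `S` is a schedule of the jobs `js` on a single machine: the job `j` runs without preemption in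
the interval `[S j, S j + p j)`, not before its release date, and no two of these intervals
overlap. -/
def IsSchedule (js : List Job) (S : Fin js.length → ℝ) : Prop :=
  (∀ j, (js[j].r : ℝ) ≤ S j) ∧ ∀ i j, i ≠ j →
    Disjoint (Set.Ico (S i) (S i + js[i].p)) (Set.Ico (S j) (S j + js[j].p))

/-- Total weight of the tardy jobs: those whose completion time exceeds the due date. -/
noncomputable def tardyWeight (js : List Job) (S : Fin js.length → ℝ) : ℕ :=
  ∑ j, if (js[j].d : ℝ) < S j + js[j].p then js[j].w else 0

/-- Some schedule has total weight of tardy jobs at most `k`. -/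
def Instance.Yes (I : Instance) : Prop :=
  ∃ S : Fin I.jobs.length → ℝ, IsSchedule I.jobs S ∧ tardyWeight I.jobs S ≤ I.k

/-- The maximum processing time. -/
def Instance.pMax (I : Instance) : ℕ := (I.jobs.map Job.p).foldr max 0

/-! ### Encodings by strings -/

/-- The `b` least significant binary digits of `a`, least significant digit first. -/
def binary (b a : ℕ) : List Bool := (List.range b).map a.testBit

/-- The numbers of a job: `p`, `r`, the sign and the absolute value of `d`, and `w`. -/
def Job.numbers (j : Job) : List ℕ := [j.p, j.r, if j.d < 0 then 1 else 0, j.d.natAbs, j.w]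

/-- The numbers of an instance: the threshold, and the numbers of all jobs. -/
def Instance.numbers (I : Instance) : List ℕ := I.k :: I.jobs.flatMap Job.numbers

/-- The string `x` encodes the instance `I`: for some number `b` of digits, `x` consists of `b` ones,
a zero, and all numbers of the instance in binary with `b` digits each. -/
def Encodes (x : List Bool) (I : Instance) : Prop :=
  I.Valid ∧ ∃ b, 0 < b ∧ (∀ a ∈ I.numbers, a < 2 ^ b) ∧
    x = List.replicate b true ++ false :: I.numbers.flatMap (binary b)

/-- The problem `1 | r_j | ∑ w_j U_j`. -/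
def WeightedTardyJobs (x : List Bool) : Prop := ∃ I, Encodes x I ∧ I.Yes

/-- The problem `1 | r_j | ∑ U_j`. -/
def TardyJobs (x : List Bool) : Prop := ∃ I, Encodes x I ∧ (∀ j ∈ I.jobs, j.w = 1) ∧ I.Yes

/-- The parameter `p_max` (`0` for strings which encode no instance; a string encodes at most one
instance, see `Encodes.unique`). -/
noncomputable def pMaxParam (x : List Bool) : ℕ := if h : ∃ I, Encodes x I then h.choose.pMax else 0

/-! ### The problem Clique with its usual parameter -/

/-- The string `x` encodes the graph `G` with `n` vertices and the number `k`: `n` ones, a zero, `k`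
ones, a zero, and the adjacency matrix of `G`, row by row. -/
def EncodesGraph (x : List Bool) (n k : ℕ) (G : SimpleGraph (Fin n)) : Prop :=
  x = List.replicate n true ++ false :: (List.replicate k true ++ false ::
    List.ofFn fun q : Fin (n * n) => decide (G.Adj q.divNat q.modNat))

/-- The problem Clique: does the graph `G` have a clique with `k` vertices? -/
def Clique (x : List Bool) : Prop :=
  ∃ (n k : ℕ) (G : SimpleGraph (Fin n)), EncodesGraph x n k G ∧ ∃ s, G.IsNClique k s

/-- The parameter `k` of Clique (`0` for strings which encode no graph with a number). -/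
noncomputable def cliqueParam (x : List Bool) : ℕ :=
  if h : ∃ k n, ∃ G : SimpleGraph (Fin n), EncodesGraph x n k G then h.choose else 0

/-- Parameterized reductions `q` computable in polynomial time: `x` is in `L` iff `q x` is in `L'`,
and the parameter of `q x` is bounded by a computable function of the parameter of `x`. Every such
reduction is an fpt-reduction. -/
def ParamReduces (L : List Bool → Prop) (κ : List Bool → ℕ) (L' : List Bool → Prop)
    (κ' : List Bool → ℕ) : Prop :=
  ∃ q : List Bool → List Bool, PolyTime id id q ∧ (∀ x, L x ↔ L' (q x)) ∧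
    ∃ g : ℕ → ℕ, Computable g ∧ ∀ x, κ' (q x) ≤ g (κ x)

/-! ### Encodings are unique -/

theorem length_binary (b a : ℕ) : (binary b a).length = b := by simp [binary]

theorem binary_inj {b a a' : ℕ} (ha : a < 2 ^ b) (ha' : a' < 2 ^ b)
    (h : binary b a = binary b a') : a = a' := by
  apply Nat.eq_of_testBit_eq
  intro i
  rcases Nat.lt_or_ge i b with hi | hi
  · unfold binary at h
    have h1 := congrArg (fun l => l[i]?) h
    simp only [List.getElem?_map, List.getElem?_range hi, Option.map_some, Option.some.injEq] at h1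
    exact h1
  · rw [Nat.testBit_eq_false_of_lt (ha.trans_le (Nat.pow_le_pow_right (by norm_num) hi)),
      Nat.testBit_eq_false_of_lt (ha'.trans_le (Nat.pow_le_pow_right (by norm_num) hi))]

theorem flatMap_binary_inj {b : ℕ} (hb : 0 < b) : ∀ {l l' : List ℕ}, (∀ a ∈ l, a < 2 ^ b) →
    (∀ a ∈ l', a < 2 ^ b) → l.flatMap (binary b) = l'.flatMap (binary b) → l = l' := by
  intro l
  induction l with
  | nil =>
    intro l' _ _ h
    cases l' with
    | nil => rfl
    | cons a' l' =>
      have h1 := congrArg List.length h
      simp only [List.flatMap_nil, List.length_nil, List.flatMap_cons, List.length_append,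
        length_binary] at h1
      omega
  | cons a l ih =>
    intro l' hl hl' h
    cases l' with
    | nil =>
      have h1 := congrArg List.length h
      simp only [List.flatMap_nil, List.length_nil, List.flatMap_cons, List.length_append,
        length_binary] at h1
      omega
    | cons a' l' =>
      simp only [List.flatMap_cons] at h
      obtain ⟨h1, h2⟩ := List.append_inj h (by rw [length_binary, length_binary])
      have e1 := binary_inj (hl a (by simp)) (hl' a' (by simp)) h1
      have e2 := ih (fun c hc => hl c (by simp [hc])) (fun c hc => hl' c (by simp [hc])) h2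
      rw [e1, e2]

theorem header_inj : ∀ {b b' : ℕ} {l l' : List Bool},
    List.replicate b true ++ false :: l = List.replicate b' true ++ false :: l' →
    b = b' ∧ l = l' := by
  intro b
  induction b with
  | zero =>
    intro b' l l' h
    cases b' with
    | zero => simpa using h
    | succ b' => simp [List.replicate_succ] at h
  | succ b ih =>
    intro b' l l' h
    cases b' with
    | zero => simp [List.replicate_succ] at h
    | succ b' =>
      simp only [List.replicate_succ, List.cons_append, List.cons.injEq, true_and] at h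
      obtain ⟨h1, h2⟩ := ih h
      exact ⟨by rw [h1], h2⟩

theorem job_inj {j j' : Job} (h : j.numbers = j'.numbers) : j = j' := by
  unfold Job.numbers at h
  simp only [List.cons.injEq, and_true] at h
  obtain ⟨h1, h2, h3, h4, h5⟩ := h
  cases j
  cases j'
  simp only at h1 h2 h3 h4 h5
  subst h1 h2 h5
  congr 1
  split_ifs at h3 <;> omega

theorem jobs_inj : ∀ {l l' : List Job}, l.flatMap Job.numbers = l'.flatMap Job.numbers →
    l = l' := by
  intro l
  induction l with
  | nil =>
    intro l' h
    cases l' with
    | nil => rfl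
    | cons a' l' => simp [Job.numbers] at h
  | cons a l ih =>
    intro l' h
    cases l' with
    | nil => simp [Job.numbers] at h
    | cons a' l' =>
      simp only [List.flatMap_cons] at h
      obtain ⟨h1, h2⟩ := List.append_inj h (by simp [Job.numbers])
      rw [job_inj h1, ih h2]

/-- A string encodes at most one instance. -/
theorem Encodes.unique {x : List Bool} {I I' : Instance} (h : Encodes x I) (h' : Encodes x I') :
    I = I' := by
  obtain ⟨-, b, hb, h1, h2⟩ := h
  obtain ⟨-, b', -, h1', h2'⟩ := h'
  rw [h2] at h2'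
  obtain ⟨rfl, h3⟩ := header_inj h2'
  have h4 := flatMap_binary_inj hb h1 h1' h3
  unfold Instance.numbers at h4
  simp only [List.cons.injEq] at h4
  cases I
  cases I'
  simp only at h4
  rw [h4.1, jobs_inj h4.2]

theorem pMaxParam_eq {x : List Bool} {I : Instance} (h : Encodes x I) :
    pMaxParam x = I.pMax := by
  have h1 : ∃ I, Encodes x I := ⟨I, h⟩
  unfold pMaxParam
  rw [dif_pos h1, h1.choose_spec.unique h]

/-! ### The instance -/

section

variable (L K : ℕ) (P R D : ℕ → ℕ)

theorem div_of {n k i : ℕ} (hin : i < n) : (k * n + i) / n = k := by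
  rw [mul_comm, Nat.mul_add_div (by omega), Nat.div_eq_of_lt hin, add_zero]

theorem mod_of {n k i : ℕ} (hin : i < n) : (k * n + i) % n = i := by
  rw [mul_comm, Nat.mul_add_mod, Nat.mod_eq_of_lt hin]

/-- the instance with `L` jobs and threshold `K` -/
def inst : Instance := ⟨(List.range L).map fun z => ⟨P z, R z, D z, 1⟩, K⟩

/-- the numbers of the instance -/
def num (F : ℕ) : ℕ :=
  if F = 0 then K else if (F - 1) % 5 = 0 then P ((F - 1) / 5) else
    if (F - 1) % 5 = 1 then R ((F - 1) / 5) else if (F - 1) % 5 = 2 then 0 else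
      if (F - 1) % 5 = 3 then D ((F - 1) / 5) else 1

theorem flatMap_five (g : ℕ → ℕ) : ∀ L : ℕ, (List.range L).flatMap (fun z =>
    [g (5 * z), g (5 * z + 1), g (5 * z + 2), g (5 * z + 3), g (5 * z + 4)]) =
    (List.range (5 * L)).map g := by
  intro L
  induction L with
  | zero => simp
  | succ L ih =>
    rw [List.range_succ, List.flatMap_append, ih,
      show 5 * (L + 1) = 5 * L + 1 + 1 + 1 + 1 + 1 by ring, List.range_succ, List.range_succ,
      List.range_succ, List.range_succ, List.range_succ]
    simp


theorem numbers_inst : (inst L K P R D).numbers =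
    (List.range (1 + 5 * L)).map (num K P R D) := by
  unfold Instance.numbers inst
  simp only
  rw [add_comm 1, List.range_succ_eq_map, List.map_cons, List.map_map,
    ← flatMap_five (num K P R D ∘ Nat.succ), List.flatMap_map]
  congr 1
  apply List.flatMap_congr
  intro z _
  unfold Job.numbers num
  simp only [Function.comp, Nat.succ_eq_add_one]
  have e1 : (5 * z + 1 - 1) / 5 = z := by omega
  have e2 : (5 * z + 1 + 1 - 1) / 5 = z := by omega
  have e4 : (5 * z + 3 + 1 - 1) / 5 = z := by omega
  have f1 : (5 * z + 1 - 1) % 5 = 0 := by omega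
  have f2 : (5 * z + 1 + 1 - 1) % 5 = 1 := by omega
  have f3 : (5 * z + 2 + 1 - 1) % 5 = 2 := by omega
  have f4 : (5 * z + 3 + 1 - 1) % 5 = 3 := by omega
  have f5 : (5 * z + 4 + 1 - 1) % 5 = 4 := by omega
  rw [f1, f2, f3, f4, f5, e1, e2, e4]
  simp

theorem bits_add (l₁ l₂ : ℕ) (p : ℕ → Prop) :
    bits (l₁ + l₂) p = bits l₁ p ++ bits l₂ fun i => p (l₁ + i) := by
  unfold bits
  rw [List.range_add, List.map_append, List.map_map]
  rfl

theorem bits_congr' {len : ℕ} {b b' : ℕ → Prop} (h : ∀ i < len, (b i ↔ b' i)) :
    bits len b = bits len b' := by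
  unfold bits
  apply List.map_congr_left
  intro i hi
  rw [List.mem_range] at hi
  exact decide_eq_decide.2 (h i hi)

theorem binary_eq_bits (b a : ℕ) : binary b a = bits b fun i => a.testBit i = true := by
  unfold binary bits
  apply List.map_congr_left
  intro i _
  simp

theorem flatMap_binary (g : ℕ → ℕ) (b M : ℕ) :
    ((List.range M).map g).flatMap (binary b) =
      bits (M * b) fun q => (g (q / b)).testBit (q % b) = true := by
  induction M with
  | zero => simp [bits]
  | succ M ih =>
    rw [List.range_succ, List.map_append, List.flatMap_append, ih, Nat.succ_mul, bits_add]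
    congr 1
    simp only [List.map_cons, List.map_nil, List.flatMap_cons, List.flatMap_nil, List.append_nil]
    rw [binary_eq_bits]
    apply bits_congr'
    intro i hi
    rw [div_of hi, mod_of hi]

/-- The string encoding an instance, by its digits. -/
theorem encode_eq (g : ℕ → ℕ) (b M : ℕ) :
    List.replicate b true ++ false :: ((List.range M).map g).flatMap (binary b) =
      bits (b + (1 + M * b)) fun q => q < b ∨ (b < q ∧
        (g ((q - b - 1) / b)).testBit ((q - b - 1) % b) = true) := by
  rw [flatMap_binary, bits_add, bits_add]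
  congr 1
  · symm
    unfold bits
    rw [List.eq_replicate_iff]
    refine ⟨by simp, ?_⟩
    intro c hc
    rw [List.mem_map] at hc
    obtain ⟨i, hi, rfl⟩ := hc
    rw [List.mem_range] at hi
    simp [hi]
  · rw [← List.singleton_append]
    congr 1
    · simp [bits]
    · apply bits_congr'
      intro i _
      have e : b + (1 + i) - b - 1 = i := by omega
      rw [e]
      constructor
      · intro h
        exact Or.inr ⟨by omega, h⟩
      · rintro (h | ⟨-, h⟩)
        · omega
        · exact h

theorem foldr_max_le {l : List ℕ} {b : ℕ} (h : ∀ a ∈ l, a ≤ b) : l.foldr max 0 ≤ b := by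
  induction l with
  | nil => simp
  | cons a l ih =>
    rw [List.foldr_cons]
    exact max_le (h a (by simp)) (ih fun c hc => h c (by simp [hc]))

variable {L K P R D}

theorem get_inst (j : Fin (inst L K P R D).jobs.length) :
    (inst L K P R D).jobs[j] = ⟨P j, R j, D j, 1⟩ := by
  rw [Fin.getElem_fin]
  unfold inst
  simp only
  rw [List.getElem_map, List.getElem_range]

theorem length_inst : (inst L K P R D).jobs.length = L := by
  simp [inst]

/-- `Feas` with jobs indexed by `Fin l`. -/
theorem feas_iff_fin {l : ℕ} (hl : l = L) : Feas L K P R D ↔ ∃ A : Finset (Fin l),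
    L ≤ A.card + K ∧ ∃ S : ℕ → ℕ, (∀ j ∈ A, R j ≤ S j ∧ S j + P j ≤ D j) ∧
      ∀ i ∈ A, ∀ j ∈ A, i ≠ j → S i + P i ≤ S j ∨ S j + P j ≤ S i := by
  subst hl
  constructor
  · rintro ⟨A, hA, S, h1, h2, h3⟩
    refine ⟨Finset.univ.filter fun j : Fin l => (j : ℕ) ∈ A, ?_, S, ?_, ?_⟩
    · have e : (Finset.univ.filter fun j : Fin l => (j : ℕ) ∈ A).map Fin.valEmbedding = A := by
        ext z
        rw [Finset.mem_map]
        constructor
        · rintro ⟨j, hj, rfl⟩
          exact (Finset.mem_filter.1 hj).2
        · intro hz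
          exact ⟨⟨z, Finset.mem_range.1 (hA hz)⟩, Finset.mem_filter.2 ⟨Finset.mem_univ _, hz⟩, rfl⟩
      rw [← Finset.card_map Fin.valEmbedding, e]
      exact h1
    · intro j hj
      exact h2 j (Finset.mem_filter.1 hj).2
    · intro i hi j hj hij
      exact h3 i (Finset.mem_filter.1 hi).2 j (Finset.mem_filter.1 hj).2 fun e => hij (Fin.ext e)
  · rintro ⟨A, h1, S, h2, h3⟩
    refine ⟨A.map Fin.valEmbedding, ?_, S, by rwa [Finset.card_map], ?_, ?_⟩
    · intro z hz
      obtain ⟨j, -, rfl⟩ := Finset.mem_map.1 hz
      exact Finset.mem_range.2 j.2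
    · intro z hz
      obtain ⟨j, hj, rfl⟩ := Finset.mem_map.1 hz
      exact h2 j hj
    · intro z hz z' hz' hne
      obtain ⟨i, hi, rfl⟩ := Finset.mem_map.1 hz
      obtain ⟨j, hj, rfl⟩ := Finset.mem_map.1 hz'
      exact h3 i hi j hj fun e => hne (by rw [e])

/-- The instance is a yes-instance iff all but `K` jobs can be on time. -/
theorem inst_yes_iff (hP : ∀ z < L, 0 < P z) : (inst L K P R D).Yes ↔ Feas L K P R D := by
  have hL : (inst L K P R D).jobs.length = L := length_inst
  rw [feas_iff_fin hL]
  unfold Instance.Yes IsSchedule tardyWeight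
  simp only [get_inst]
  have hP' : ∀ j : Fin (inst L K P R D).jobs.length, (0 : ℝ) < P j := fun j => by
    exact_mod_cast hP j (lt_of_lt_of_eq j.2 hL)
  have hcardL : ∀ A : Finset (Fin (inst L K P R D).jobs.length), A.card + Aᶜ.card = L := by
    intro A
    rw [Finset.card_add_card_compl, Fintype.card_fin, hL]
  constructor
  · rintro ⟨S, ⟨h1, h2⟩, h3⟩
    have hS0 : ∀ j, 0 ≤ S j := fun j => (Nat.cast_nonneg _).trans (h1 j)
    refine ⟨Finset.univ.filter fun j : Fin (inst L K P R D).jobs.length =>
        ¬ (((D j : ℕ) : ℤ) : ℝ) < S j + P j, ?_,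
      fun z => if h : z < (inst L K P R D).jobs.length then ⌊S ⟨z, h⟩⌋₊ else 0, ?_, ?_⟩
    · have e1 : (Finset.univ.filter fun j : Fin (inst L K P R D).jobs.length =>
          (((D j : ℕ) : ℤ) : ℝ) < S j + P j).card ≤ K := by
        rw [Finset.card_filter]
        exact h3
      have e2 := hcardL (Finset.univ.filter fun j : Fin (inst L K P R D).jobs.length =>
        ¬ (((D j : ℕ) : ℤ) : ℝ) < S j + P j)
      have e3 : (Finset.univ.filter fun j : Fin (inst L K P R D).jobs.length =>
          ¬ (((D j : ℕ) : ℤ) : ℝ) < S j + P j)ᶜ = Finset.univ.filter fun j :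
          Fin (inst L K P R D).jobs.length => (((D j : ℕ) : ℤ) : ℝ) < S j + P j := by
        ext j
        simp
      rw [e3] at e2
      omega
    · intro j hj
      rw [Finset.mem_filter] at hj
      simp only
      rw [dif_pos j.2]
      constructor
      · exact Nat.le_floor (h1 j)
      · have h4 := not_lt.1 hj.2
        have h5 := Nat.floor_le (hS0 j)
        have h6 : ((⌊S j⌋₊ + P j : ℕ) : ℝ) ≤ ((D j : ℕ) : ℝ) := by
          push_cast at h4 ⊢
          linarith
        exact_mod_cast h6
    · have key : ∀ i j : Fin (inst L K P R D).jobs.length, i ≠ j → S i ≤ S j →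
          ⌊S i⌋₊ + P i ≤ ⌊S j⌋₊ := by
        intro i j hij hle
        have h7 : S i + P i ≤ S j := by
          by_contra hc
          push Not at hc
          have h8 : S j ∈ Set.Ico (S i) (S i + P i) := ⟨hle, hc⟩
          exact Set.disjoint_left.1 (h2 i j hij) h8 ⟨le_rfl, by linarith [hP' j]⟩
        have h8 : ⌊S i + P i⌋₊ ≤ ⌊S j⌋₊ := Nat.floor_le_floor h7
        rwa [Nat.floor_add_natCast (hS0 i)] at h8
      intro i _ j _ hij
      simp only
      rw [dif_pos i.2, dif_pos j.2]
      rcases le_total (S i) (S j) with hle | hle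
      · exact Or.inl (key i j hij hle)
      · exact Or.inr (key j i (Ne.symm hij) hle)
  · rintro ⟨A, h1, S, h2, h3⟩
    -- late jobs are put after everything
    set M : ℕ := ∑ j : Fin (inst L K P R D).jobs.length, (R j + D j) with hM
    have hMR : ∀ j : Fin (inst L K P R D).jobs.length, R j + D j ≤ M := fun j =>
      Finset.single_le_sum (f := fun j : Fin (inst L K P R D).jobs.length => R j + D j)
        (fun _ _ => Nat.zero_le _) (Finset.mem_univ j)
    set Q : Fin (inst L K P R D).jobs.length → ℕ := fun j =>
      ∑ i ∈ Finset.univ.filter (· < j), P i with hQ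
    have hQ1 : ∀ i j : Fin (inst L K P R D).jobs.length, i < j → Q i + P i ≤ Q j := by
      intro i j hij
      have e1 : insert i (Finset.univ.filter (· < i)) ⊆ Finset.univ.filter (· < j) := by
        intro c hc
        rw [Finset.mem_insert, Finset.mem_filter] at hc
        rw [Finset.mem_filter]
        rcases hc with rfl | hc
        · exact ⟨Finset.mem_univ _, hij⟩
        · exact ⟨Finset.mem_univ _, hc.2.trans hij⟩
      have e2 := Finset.sum_le_sum_of_subset (f := fun c : Fin (inst L K P R D).jobs.length => P c)
        e1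
      rw [Finset.sum_insert (by simp)] at e2
      simp only [hQ]
      omega
    set T : Fin (inst L K P R D).jobs.length → ℕ := fun j => if j ∈ A then S j else M + Q j with hT
    have hTA : ∀ j ∈ A, T j = S j := fun j hj => by simp only [hT]; rw [if_pos hj]
    have hTN : ∀ j, j ∉ A → T j = M + Q j := fun j hj => by simp only [hT]; rw [if_neg hj]
    have hsep : ∀ i j, i ≠ j → T i + P i ≤ T j ∨ T j + P j ≤ T i := by
      intro i j hij
      by_cases hi : i ∈ A
      · by_cases hj : j ∈ A
        · rw [hTA i hi, hTA j hj]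
          exact h3 i hi j hj hij
        · left
          rw [hTA i hi, hTN j hj]
          have := (h2 i hi).2
          have := hMR i
          omega
      · by_cases hj : j ∈ A
        · right
          rw [hTN i hi, hTA j hj]
          have := (h2 j hj).2
          have := hMR j
          omega
        · rw [hTN i hi, hTN j hj]
          rcases lt_or_gt_of_ne hij with h | h
          · left
            have := hQ1 i j h
            omega
          · right
            have := hQ1 j i h
            omega
    refine ⟨fun j => (T j : ℝ), ⟨?_, ?_⟩, ?_⟩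
    · intro j
      have : R j ≤ T j := by
        by_cases hj : j ∈ A
        · rw [hTA j hj]; exact (h2 j hj).1
        · rw [hTN j hj]
          have := hMR j
          omega
      show ((R j : ℕ) : ℝ) ≤ (T j : ℝ)
      exact_mod_cast this
    · intro i j hij
      rw [Set.disjoint_left]
      rintro x ⟨hx1, hx2⟩ ⟨hx3, hx4⟩
      rcases hsep i j hij with h | h
      · have h' : (T i : ℝ) + P i ≤ T j := by exact_mod_cast h
        linarith
      · have h' : (T j : ℝ) + P j ≤ T i := by exact_mod_cast h
        linarith
    · have e1 : (∑ j : Fin (inst L K P R D).jobs.length,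
          if (((D j : ℕ) : ℤ) : ℝ) < (T j : ℝ) + P j then 1 else 0) ≤ Aᶜ.card := by
        rw [← Finset.card_filter]
        apply Finset.card_le_card
        intro j hj
        rw [Finset.mem_filter] at hj
        rw [Finset.mem_compl]
        intro hjA
        have h4 := (h2 j hjA).2
        rw [← hTA j hjA] at h4
        have h5 : (T j : ℝ) + P j ≤ (((D j : ℕ) : ℤ) : ℝ) := by
          push_cast
          exact_mod_cast h4
        exact absurd hj.2 (not_lt.2 h5)
      have e2 := hcardL A
      exact e1.trans (by
        change Aᶜ.card ≤ K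
        omega)

end

/-! ### The reduction -/

/-- Every problem in NP is reduced in polynomial time to instances with unit weights, processing
times `1` and `p`, and all numbers bounded by the length of the string. -/
theorem reduction {p : ℕ} (hp : 0 < p) (hcore : Core p) {L' : List Bool → Prop} (h : InNP L') :
    ∃ q : List Bool → List Bool, PolyTime id id q ∧ ∀ x, ∃ I : Instance, Encodes (q x) I ∧
      (∀ j ∈ I.jobs, j.w = 1 ∧ (j.p = 1 ∨ j.p = p)) ∧ (∀ a ∈ I.numbers, a ≤ (q x).length) ∧
      (L' x ↔ I.Yes) := by
  obtain ⟨pol, Rel, hR, hL'⟩ := h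
  obtain ⟨Φ, hΦ⟩ := cook_levin_sat pol Rel hR
  obtain ⟨L, W, K, P, R, D, hL, hW, hK, hP, hRR, hD, hb, hfeas⟩ := hcore Φ
  have hw : Def fun X _ => W X + K X + (p + 1) := Def.add (Def.add hW hK) (Def.const (p + 1))
  have hM : Def fun X _ => 1 + 5 * L X := Def.add (Def.const 1) (Def.mul (Def.const 5) hL)
  have hlen : Def fun X _ => (W X + K X + (p + 1)) +
      (1 + (1 + 5 * L X) * (W X + K X + (p + 1))) :=
    Def.add hw (Def.add (Def.const 1) (Def.mul hM hw))
  have hs : Def fun X v => v 0 - (W X + K X + (p + 1)) - 1 :=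
    Def.sub (Def.sub (Def.var 0) hw) (Def.const 1)
  have hnum : ∀ {f : Inp → (ℕ → ℕ) → ℕ}, Def f →
      Def fun X v => num (K X) (P X) (R X) (D X) (f X v) := by
    intro f hf
    have h1 : Def fun X v => (f X v - 1) / 5 := Def.div (Def.sub hf (Def.const 1)) (Def.const 5)
    have h2 : Def fun X v => (f X v - 1) % 5 := Def.mod (Def.sub hf (Def.const 1)) (Def.const 5)
    refine (Def.ite (DefP.eq hf (Def.const 0)) hK (Def.ite (DefP.eq h2 (Def.const 0))
      (Def.comp1 hP h1) (Def.ite (DefP.eq h2 (Def.const 1)) (Def.comp1 hRR h1)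
        (Def.ite (DefP.eq h2 (Def.const 2)) (Def.const 0) (Def.ite (DefP.eq h2 (Def.const 3))
          (Def.comp1 hD h1) (Def.const 1)))))).congr fun X v => ?_
    unfold num
    split_ifs <;> rfl
  have hbits : DefP fun X v => v 0 < W X + K X + (p + 1) ∨ (W X + K X + (p + 1) < v 0 ∧
      (num (K X) (P X) (R X) (D X) ((v 0 - (W X + K X + (p + 1)) - 1) /
        (W X + K X + (p + 1)))).testBit ((v 0 - (W X + K X + (p + 1)) - 1) %
        (W X + K X + (p + 1))) = true) :=
    DefP.or (DefP.lt (Def.var 0) hw) (DefP.and (DefP.lt hw (Def.var 0))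
      (defP_testBit (hnum (Def.div hs hw)) (Def.mod hs hw)))
  refine ⟨_, polyTime_bits (b := fun X q => q < W X + K X + (p + 1) ∨ (W X + K X + (p + 1) < q ∧
      (num (K X) (P X) (R X) (D X) ((q - (W X + K X + (p + 1)) - 1) /
        (W X + K X + (p + 1)))).testBit ((q - (W X + K X + (p + 1)) - 1) %
        (W X + K X + (p + 1))) = true)) hlen hbits, fun x => ?_⟩
  have hnum_le : ∀ F < 1 + 5 * L (inp1 x), num (K (inp1 x)) (P (inp1 x)) (R (inp1 x)) (D (inp1 x)) F
      ≤ W (inp1 x) + K (inp1 x) + (p + 1) := by
    intro F hF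
    unfold num
    by_cases h0 : F = 0
    · rw [if_pos h0]; omega
    · have hz : (F - 1) / 5 < L (inp1 x) := by omega
      obtain ⟨h1, h2, h3⟩ := hb (inp1 x) _ hz
      split_ifs <;> omega
  refine ⟨inst (L (inp1 x)) (K (inp1 x)) (P (inp1 x)) (R (inp1 x)) (D (inp1 x)), ?_, ?_, ?_, ?_⟩
  · refine ⟨?_, W (inp1 x) + K (inp1 x) + (p + 1), by omega, ?_, ?_⟩
    · intro j hj
      unfold inst at hj
      rw [List.mem_map] at hj
      obtain ⟨z, hz, rfl⟩ := hj
      refine ⟨?_, Nat.one_pos⟩
      rcases (hb (inp1 x) z (List.mem_range.1 hz)).1 with h1 | h1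
      · simp only [h1]; exact Nat.one_pos
      · simp only [h1]; exact hp
    · intro a ha
      rw [numbers_inst, List.mem_map] at ha
      obtain ⟨F, hF, rfl⟩ := ha
      exact (hnum_le F (List.mem_range.1 hF)).trans_lt Nat.lt_two_pow_self
    · rw [numbers_inst, encode_eq]
  · intro j hj
    unfold inst at hj
    rw [List.mem_map] at hj
    obtain ⟨z, hz, rfl⟩ := hj
    exact ⟨rfl, (hb (inp1 x) z (List.mem_range.1 hz)).1⟩
  · intro a ha
    rw [numbers_inst, List.mem_map] at ha
    obtain ⟨F, hF, rfl⟩ := ha
    have h1 := hnum_le F (List.mem_range.1 hF)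
    rw [length_bits]
    omega
  · rw [hL' x, inst_yes_iff (fun z hz => by
      rcases (hb (inp1 x) z hz).1 with h1 | h1 <;> omega), ← hfeas, ← hΦ (inp1 x)]
    rfl

/-- The problem `1 | r_j, p_j ∈ {1, p} | ∑ U_j`, all numbers bounded by the length of the string. -/
def TardyTwoLengths (p : ℕ) (x : List Bool) : Prop :=
  ∃ I, Encodes x I ∧ (∀ j ∈ I.jobs, j.w = 1 ∧ (j.p = 1 ∨ j.p = p)) ∧
    (∀ a ∈ I.numbers, a ≤ x.length) ∧ I.Yes

theorem npHard_twoLengths {p : ℕ} (hp : 0 < p) (hcore : Core p) : NPHard (TardyTwoLengths p) := by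
  intro L h
  obtain ⟨q, hq, h⟩ := reduction hp hcore h
  refine ⟨q, hq, fun x => ?_⟩
  obtain ⟨I, h1, h2, h3, h4⟩ := h x
  rw [h4]
  constructor
  · intro hy
    exact ⟨I, h1, h2, h3, hy⟩
  · rintro ⟨I', g1, -, -, g2⟩
    rw [h1.unique g1]
    exact g2

theorem pMax_le {I : Instance} {p : ℕ} (hp : 0 < p)
    (h : ∀ j ∈ I.jobs, j.w = 1 ∧ (j.p = 1 ∨ j.p = p)) : I.pMax ≤ p := by
  apply foldr_max_le
  intro a ha
  rw [List.mem_map] at ha
  obtain ⟨j, hj, rfl⟩ := ha
  rcases (h j hj).2 with h1 | h1 <;> omega

theorem paramReduces_of_inNP {p : ℕ} (hp : 0 < p) (hcore : Core p) {L : List Bool → Prop}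
    (κ : List Bool → ℕ) (h : InNP L) :
    ParamReduces L κ TardyJobs pMaxParam ∧ ParamReduces L κ WeightedTardyJobs pMaxParam := by
  obtain ⟨q, hq, h⟩ := reduction hp hcore h
  have hκ : ∀ x, pMaxParam (q x) ≤ p := by
    intro x
    obtain ⟨I, h1, h3, -, -⟩ := h x
    rw [pMaxParam_eq h1]
    exact pMax_le hp h3
  refine ⟨⟨q, hq, fun x => ?_, fun _ => p, Computable.const p, hκ⟩,
    ⟨q, hq, fun x => ?_, fun _ => p, Computable.const p, hκ⟩⟩
  · obtain ⟨I, h1, h3, h4, h5⟩ := h x
    rw [h5]
    constructor
    · intro hy
      exact ⟨I, h1, fun j hj => (h3 j hj).1, hy⟩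
    · rintro ⟨I', g1, -, g2⟩
      rw [h1.unique g1]
      exact g2
  · obtain ⟨I, h1, h3, h4, h5⟩ := h x
    rw [h5]
    constructor
    · intro hy
      exact ⟨I, h1, hy⟩
    · rintro ⟨I', g1, g2⟩
      rw [h1.unique g1]
      exact g2

/-! ### Clique is in NP -/

/-- strings with two unary numbers and a rest -/
def code (n k : ℕ) (l : List Bool) : List Bool :=
  List.replicate n true ++ false :: (List.replicate k true ++ false :: l)

theorem length_code (n k : ℕ) (l : List Bool) : (code n k l).length = n + 1 + (k + 1) + l.length := by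
  simp [code]
  omega

theorem code_lt {n k i : ℕ} (l : List Bool) (h : i < n) : (code n k l)[i]? = some true := by
  unfold code
  rw [List.getElem?_append_left (by simpa using h), List.getElem?_replicate, if_pos h]

theorem code_add (n k i : ℕ) (l : List Bool) :
    (code n k l)[n + 1 + i]? = (List.replicate k true ++ false :: l)[i]? := by
  unfold code
  rw [List.getElem?_append_right (by simp; omega), List.length_replicate,
    show n + 1 + i - n = i + 1 by omega, List.getElem?_cons_succ]

theorem code_n (n k : ℕ) (l : List Bool) : (code n k l)[n]? = some false := by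
  unfold code
  rw [List.getElem?_append_right (by simp), List.length_replicate, Nat.sub_self,
    List.getElem?_cons_zero]

theorem code_mid {n k i : ℕ} (l : List Bool) (h : i < k) :
    (code n k l)[n + 1 + i]? = some true := by
  rw [code_add, List.getElem?_append_left (by simpa using h), List.getElem?_replicate, if_pos h]

theorem code_k (n k : ℕ) (l : List Bool) : (code n k l)[n + 1 + k]? = some false := by
  rw [code_add, List.getElem?_append_right (by simp), List.length_replicate, Nat.sub_self,
    List.getElem?_cons_zero]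

theorem code_tail (n k i : ℕ) (l : List Bool) : (code n k l)[n + 1 + (k + 1) + i]? = l[i]? := by
  rw [add_assoc (n + 1), code_add, List.getElem?_append_right (by simp; omega),
    List.length_replicate, show k + 1 + i - k = i + 1 by omega, List.getElem?_cons_succ]

/-- `1` if the `i`-th entry is `true`, else `0` -/
noncomputable def ind (l : List Bool) (i : ℕ) : ℕ := if l[i]? = some true then 1 else 0

theorem sum_ind (l : List Bool) (n : ℕ) : ∑ i ∈ Finset.range n, ind l i =
    ((Finset.range n).filter fun i => l[i]? = some true).card := by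
  unfold ind
  rw [Finset.sum_boole]
  rfl

/-- the relation checked in polynomial time -/
def CliqueP (X : Inp) : Prop :=
  ∃ n < (X false).length + 1, ∃ k < (X false).length + 1,
    (X false).length = n + 1 + (k + 1) + n * n ∧
    (∀ i < n, (X false)[i]? = some true) ∧ ¬ (X false)[n]? = some true ∧
    (∀ i < k, (X false)[n + 1 + i]? = some true) ∧ ¬ (X false)[n + 1 + k]? = some true ∧
    (∀ u < n, ∀ v < n, (X false)[n + 1 + (k + 1) + (u * n + v)]? = some true →
      (u ≠ v ∧ (X false)[n + 1 + (k + 1) + (v * n + u)]? = some true)) ∧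
    (∑ i ∈ Finset.range n, ind (X true) i) = k ∧
    (∀ u < n, ∀ v < n, (X true)[u]? = some true → (X true)[v]? = some true → u ≠ v →
      (X false)[n + 1 + (k + 1) + (u * n + v)]? = some true)

theorem defP_clique : DefP fun X _ => CliqueP X := by
  have hl : Def fun X (_ : ℕ → ℕ) => (X false).length + 1 := Def.add (Def.len false) (Def.const 1)
  have c1 : Def fun (_ : Inp) _ => 1 := Def.const 1
  have v (i : ℕ) : Def fun (_ : Inp) v => v i := Def.var i
  -- positions in the adjacency matrix in the environment `v, u, k, n`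
  have hp1 : Def fun (_ : Inp) v => v 3 + 1 + (v 2 + 1) + (v 1 * v 3 + v 0) :=
    Def.add (Def.add (Def.add (v 3) c1) (Def.add (v 2) c1)) (Def.add (Def.mul (v 1) (v 3)) (v 0))
  have hp2 : Def fun (_ : Inp) v => v 3 + 1 + (v 2 + 1) + (v 0 * v 3 + v 1) :=
    Def.add (Def.add (Def.add (v 3) c1) (Def.add (v 2) c1)) (Def.add (Def.mul (v 0) (v 3)) (v 1))
  refine DefP.ex hl (P := fun X v => ∃ k < (X false).length + 1,
    (X false).length = v 0 + 1 + (k + 1) + v 0 * v 0 ∧
    (∀ i < v 0, (X false)[i]? = some true) ∧ ¬ (X false)[v 0]? = some true ∧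
    (∀ i < k, (X false)[v 0 + 1 + i]? = some true) ∧ ¬ (X false)[v 0 + 1 + k]? = some true ∧
    (∀ u < v 0, ∀ w < v 0, (X false)[v 0 + 1 + (k + 1) + (u * v 0 + w)]? = some true →
      (u ≠ w ∧ (X false)[v 0 + 1 + (k + 1) + (w * v 0 + u)]? = some true)) ∧
    (∑ i ∈ Finset.range (v 0), ind (X true) i) = k ∧
    (∀ u < v 0, ∀ w < v 0, (X true)[u]? = some true → (X true)[w]? = some true → u ≠ w →
      (X false)[v 0 + 1 + (k + 1) + (u * v 0 + w)]? = some true)) ?_
  refine DefP.ex hl (P := fun X v =>
    (X false).length = v 1 + 1 + (v 0 + 1) + v 1 * v 1 ∧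
    (∀ i < v 1, (X false)[i]? = some true) ∧ ¬ (X false)[v 1]? = some true ∧
    (∀ i < v 0, (X false)[v 1 + 1 + i]? = some true) ∧ ¬ (X false)[v 1 + 1 + v 0]? = some true ∧
    (∀ u < v 1, ∀ w < v 1, (X false)[v 1 + 1 + (v 0 + 1) + (u * v 1 + w)]? = some true →
      (u ≠ w ∧ (X false)[v 1 + 1 + (v 0 + 1) + (w * v 1 + u)]? = some true)) ∧
    (∑ i ∈ Finset.range (v 1), ind (X true) i) = v 0 ∧
    (∀ u < v 1, ∀ w < v 1, (X true)[u]? = some true → (X true)[w]? = some true → u ≠ w →
      (X false)[v 1 + 1 + (v 0 + 1) + (u * v 1 + w)]? = some true)) ?_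
  refine DefP.and (DefP.eq (Def.len false) (Def.add (Def.add (Def.add (v 1) c1)
    (Def.add (v 0) c1)) (Def.mul (v 1) (v 1)))) (DefP.and ?_ (DefP.and ?_ (DefP.and ?_
      (DefP.and ?_ (DefP.and ?_ (DefP.and ?_ ?_))))))
  · exact DefP.all (v 1) (P := fun X v => (X false)[v 0]? = some true) (DefP.bit false (v 0))
  · exact DefP.not (DefP.bit false (v 1))
  · exact DefP.all (v 0) (P := fun X v => (X false)[v 2 + 1 + v 0]? = some true)
      (DefP.bit false (Def.add (Def.add (v 2) c1) (v 0)))
  · exact DefP.not (DefP.bit false (Def.add (Def.add (v 1) c1) (v 0)))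
  · refine DefP.all (v 1) (P := fun X v => ∀ w < v 2,
      (X false)[v 2 + 1 + (v 1 + 1) + (v 0 * v 2 + w)]? = some true →
      (v 0 ≠ w ∧ (X false)[v 2 + 1 + (v 1 + 1) + (w * v 2 + v 0)]? = some true)) ?_
    refine DefP.all (v 2) (P := fun X v =>
      (X false)[v 3 + 1 + (v 2 + 1) + (v 1 * v 3 + v 0)]? = some true →
      (v 1 ≠ v 0 ∧ (X false)[v 3 + 1 + (v 2 + 1) + (v 0 * v 3 + v 1)]? = some true)) ?_
    exact DefP.imp (DefP.bit false hp1) (DefP.and (DefP.not (DefP.eq (v 1) (v 0)))
      (DefP.bit false hp2))
  · refine DefP.eq ?_ (v 0)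
    refine Def.sum (v 1) (g := fun X v => ind (X true) (v 0)) ?_
    exact Def.congr (DefP.bit true (v 0)) fun X v => by unfold ind; split_ifs <;> rfl
  · refine DefP.all (v 1) (P := fun X v => ∀ w < v 2,
      (X true)[v 0]? = some true → (X true)[w]? = some true → v 0 ≠ w →
      (X false)[v 2 + 1 + (v 1 + 1) + (v 0 * v 2 + w)]? = some true) ?_
    refine DefP.all (v 2) (P := fun X v =>
      (X true)[v 1]? = some true → (X true)[v 0]? = some true → v 1 ≠ v 0 →
      (X false)[v 3 + 1 + (v 2 + 1) + (v 1 * v 3 + v 0)]? = some true) ?_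
    exact DefP.imp (DefP.bit true (v 1)) (DefP.imp (DefP.bit true (v 0))
      (DefP.imp (DefP.not (DefP.eq (v 1) (v 0))) (DefP.bit false hp1)))

theorem matrix_get {n : ℕ} (A : Fin n → Fin n → Bool) {u v : ℕ} (hu : u < n) (hv : v < n) :
    (List.ofFn fun q : Fin (n * n) => A q.divNat q.modNat)[u * n + v]? =
      some (A ⟨u, hu⟩ ⟨v, hv⟩) := by
  have h : u * n + v < n * n := by
    have : (u + 1) * n ≤ n * n := Nat.mul_le_mul_right n hu
    rw [Nat.add_mul] at this
    omega
  rw [List.getElem?_ofFn, dif_pos h]
  congr 2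
  · exact Fin.ext (div_of hv)
  · exact Fin.ext (mod_of hv)

theorem clique_iff (x : List Bool) : Clique x ↔
    ∃ y : List Bool, y.length = Polynomial.X.eval x.length ∧ CliqueP (inp2 x y) := by
  unfold CliqueP
  simp only [Polynomial.eval_X, inp2_false, inp2_true]
  constructor
  · rintro ⟨n, k, G, hx, s, hs⟩
    have hx' : x = code n k (List.ofFn fun q : Fin (n * n) => decide (G.Adj q.divNat q.modNat)) :=
      hx
    have hlen : x.length = n + 1 + (k + 1) + n * n := by
      rw [hx', length_code, List.length_ofFn]
    have hy : ∀ i, (bits x.length fun i => ∃ h : i < n, (⟨i, h⟩ : Fin n) ∈ s)[i]? = some true ↔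
        ∃ h : i < n, (⟨i, h⟩ : Fin n) ∈ s := by
      intro i
      rw [getElem?_bits]
      constructor
      · exact fun h => h.2
      · rintro ⟨h, hm⟩
        exact ⟨by omega, h, hm⟩
    have hadj : ∀ u v (hu : u < n) (hv : v < n), x[n + 1 + (k + 1) + (u * n + v)]? = some true ↔
        G.Adj ⟨u, hu⟩ ⟨v, hv⟩ := by
      intro u v hu hv
      rw [hx', code_tail, matrix_get (fun a b => decide (G.Adj a b)) hu hv]
      simp
    refine ⟨bits x.length fun i => ∃ h : i < n, (⟨i, h⟩ : Fin n) ∈ s, length_bits _ _, n, by omega,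
      k, by omega, hlen, ?_, ?_, ?_, ?_, ?_, ?_, ?_⟩
    · intro i hi
      rw [hx', code_lt _ hi]
    · rw [hx', code_n]; simp
    · intro i hi
      rw [hx', code_mid _ hi]
    · rw [hx', code_k]; simp
    · intro u hu v hv h
      rw [hadj u v hu hv] at h
      refine ⟨?_, (hadj v u hv hu).2 h.symm⟩
      rintro rfl
      exact G.loopless.irrefl _ h
    · rw [sum_ind]
      have h1 : (Finset.range n).filter (fun i => (bits x.length fun i =>
          ∃ h : i < n, (⟨i, h⟩ : Fin n) ∈ s)[i]? = some true) = s.map Fin.valEmbedding := by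
        ext i
        rw [Finset.mem_filter, Finset.mem_map, hy, Finset.mem_range]
        constructor
        · rintro ⟨-, h, hm⟩
          exact ⟨⟨i, h⟩, hm, rfl⟩
        · rintro ⟨a, ha, rfl⟩
          exact ⟨a.2, a.2, ha⟩
      rw [h1, Finset.card_map, hs.card_eq]
    · intro u hu v hv h1 h2 hne
      rw [hy] at h1 h2
      obtain ⟨_, h1⟩ := h1
      obtain ⟨_, h2⟩ := h2
      rw [hadj u v hu hv]
      exact hs.isClique h1 h2 (fun e => hne (Fin.mk.inj e))
  · rintro ⟨y, -, n, -, k, -, h1, h2, h3, h4, h5, h6, h7, h8⟩
    obtain ⟨G, hG⟩ : ∃ G : SimpleGraph (Fin n), ∀ u v : Fin n, G.Adj u v ↔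
        x[n + 1 + (k + 1) + ((u : ℕ) * n + v)]? = some true :=
      ⟨{ Adj := fun u v => x[n + 1 + (k + 1) + ((u : ℕ) * n + v)]? = some true
         symm := ⟨fun u v h => (h6 u u.2 v v.2 h).2⟩
         loopless := ⟨fun u h => (h6 u u.2 u u.2 h).1 rfl⟩ }, fun _ _ => Iff.rfl⟩
    have hb : ∀ i, i < x.length → ∀ c, (x[i]? = some true ↔ c = true) → x[i]? = some c := by
      intro i hi c hc
      rw [List.getElem?_eq_getElem hi] at hc ⊢
      simp only [Option.some.injEq] at hc ⊢
      cases hx : x[i] <;> cases c <;> simp_all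
    refine ⟨n, k, G, ?_, Finset.univ.filter fun u : Fin n => y[(u : ℕ)]? = some true, ?_⟩
    · unfold EncodesGraph
      change x = code n k _
      apply List.ext_getElem?
      intro i
      rcases Nat.lt_or_ge i n with g1 | g1
      · rw [h2 i g1, code_lt _ g1]
      rcases Nat.eq_or_lt_of_le g1 with g2 | g2
      · subst g2
        rw [code_n]
        exact hb _ (by omega) _ (by simpa using h3)
      rcases Nat.lt_or_ge i (n + 1 + k) with g3 | g3
      · obtain ⟨j, rfl⟩ := Nat.exists_eq_add_of_le g2
        rw [Nat.succ_eq_add_one] at *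
        rw [h4 j (by omega), code_mid _ (by omega)]
      rcases Nat.eq_or_lt_of_le g3 with g4 | g4
      · subst g4
        rw [code_k]
        exact hb _ (by omega) _ (by simpa using h5)
      obtain ⟨j, rfl⟩ : ∃ j, i = n + 1 + (k + 1) + j := ⟨i - (n + 1 + (k + 1)), by omega⟩
      rw [code_tail]
      rcases Nat.lt_or_ge j (n * n) with g5 | g5
      · have hn : 0 < n := by
          rcases Nat.eq_zero_or_pos n with h0 | h0
          · subst h0; omega
          · exact h0
        have hu : j / n < n := by rw [Nat.div_lt_iff_lt_mul hn]; exact g5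
        have hv : j % n < n := Nat.mod_lt _ hn
        have e : j = j / n * n + j % n := by
          have := Nat.div_add_mod j n
          rw [mul_comm] at this
          exact this.symm
        have hm := matrix_get (fun a b => decide (G.Adj a b)) hu hv
        rw [← e] at hm
        rw [hm]
        apply hb _ (by omega)
        rw [decide_eq_true_iff, hG]
        simp only
        rw [← e]
      · rw [List.getElem?_eq_none (by omega), List.getElem?_eq_none (by
          rw [List.length_ofFn]; exact g5)]
    · constructor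
      · intro u hu v hv hne
        rw [Finset.mem_coe, Finset.mem_filter] at hu hv
        rw [hG]
        exact h8 u u.2 v v.2 hu.2 hv.2 (fun e => hne (Fin.ext e))
      · rw [← h7, sum_ind, ← Finset.card_map Fin.valEmbedding]
        congr 1
        ext i
        rw [Finset.mem_map, Finset.mem_filter, Finset.mem_range]
        constructor
        · rintro ⟨a, ha, rfl⟩
          rw [Finset.mem_filter] at ha
          exact ⟨a.2, ha.2⟩
        · rintro ⟨g1, g2⟩
          exact ⟨⟨i, g1⟩, Finset.mem_filter.2 ⟨Finset.mem_univ _, g2⟩, rfl⟩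

theorem inNP_clique : InNP Clique := inNP_of_defP Polynomial.X defP_clique clique_iff

/-- **Both scheduling problems are W[1]-hard for the parameter `p_max`**: the W[1]-complete problem
Clique (with the size of the clique as parameter) is reduced to each of them by a parameterized
reduction computable in polynomial time; so is every problem in NP with any parameter. For every
`p ≥ 4`, already the problem with unit weights and processing times in `{1, p}` is (strongly)
NP-hard. -/
theorem result :
    ParamReduces Clique cliqueParam TardyJobs pMaxParam ∧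
    ParamReduces Clique cliqueParam WeightedTardyJobs pMaxParam ∧
    (∀ (L : List Bool → Prop) (κ : List Bool → ℕ), InNP L →
      ParamReduces L κ TardyJobs pMaxParam ∧ ParamReduces L κ WeightedTardyJobs pMaxParam) ∧
    ∀ p : ℕ, 4 ≤ p → NPHard (TardyTwoLengths p) :=
  ⟨(paramReduces_of_inNP (p := 4) (by norm_num) (core le_rfl) _ inNP_clique).1,
    (paramReduces_of_inNP (p := 4) (by norm_num) (core le_rfl) _ inNP_clique).2,
    fun _ κ h => paramReduces_of_inNP (p := 4) (by norm_num) (core le_rfl) κ h,
    fun _ hp => npHard_twoLengths (by omega) (core hp)⟩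

end Pool.Agent.Results.MP_4ed2ca_lc.TwoLengths
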